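import Pool.Agent.H76.MXT.Stmts

/-!
# Row HM2 of the board `mxt`: two corners in opposite quadrants
-/

set_option autoImplicit false

namespace Pool.MXT

open Set

theorem hm2_thm (hHOM : S_HOM) (hRCT : S_RCT) : S_HM2 := by
  intro Ψ c₁ c₂ s₀ t₀ δ σ τ hΨ hinj hδ hσ hτ hc1 hc2 h1 h2
  have hσ2 : σ * σ = 1 := by rcases hσ with h | h <;> rw [h] <;> norm_num
  have hτ2 : τ * τ = 1 := by rcases hτ with h | h <;> rw [h] <;> norm_num
  -- zeros
  have key : ∀ r : ℝ, 0 ≤ r → ∀ s ∈ Icc (s₀ - δ) (s₀ + δ), ∀ t ∈ Icc (t₀ - δ) (t₀ + δ),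
      Ψ (c₁ s + (r * σ, r * τ)) - Ψ (c₂ t) = 0 → r = 0 ∧ s = s₀ ∧ t = t₀ := by
    intro r hr s hs t ht h0
    have h3 : c₁ s + (r * σ, r * τ) = c₂ t := hinj (sub_eq_zero.1 h0)
    obtain ⟨a1, a2, a3⟩ := h1 s hs
    obtain ⟨b1, b2, b3⟩ := h2 t ht
    have e1 : (c₁ s).1 + r * σ = (c₂ t).1 := congrArg Prod.fst h3
    have e2 : (c₁ s).2 + r * τ = (c₂ t).2 := congrArg Prod.snd h3
    rw [← e1] at b1
    rw [← e2] at b2
    have f1 : σ * ((c₁ s).1 + r * σ) = σ * (c₁ s).1 + r := by linear_combination r * hσ2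
    have f2 : τ * ((c₁ s).2 + r * τ) = τ * (c₁ s).2 + r := by linear_combination r * hτ2
    rw [f1] at b1
    rw [f2] at b2
    have hr0 : r = 0 := by linarith
    have g1 : σ * (c₁ s).1 = 0 := by linarith
    have g2 : τ * (c₁ s).2 = 0 := by linarith
    have k1 : (c₁ s).1 = 0 := by linear_combination σ * g1 - (c₁ s).1 * hσ2
    have k2 : (c₁ s).2 = 0 := by linear_combination τ * g2 - (c₁ s).2 * hτ2
    refine ⟨hr0, a3 (Prod.ext k1 k2), b3 ?_⟩
    refine Prod.ext ?_ ?_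
    · rw [← e1, hr0, k1, zero_mul, add_zero]
      rfl
    · rw [← e2, hr0, k2, zero_mul, add_zero]
      rfl
  have hs1 : s₀ - δ ∈ Icc (s₀ - δ) (s₀ + δ) := ⟨le_rfl, by linarith⟩
  have hs2 : s₀ + δ ∈ Icc (s₀ - δ) (s₀ + δ) := ⟨by linarith, le_rfl⟩
  have ht1 : t₀ - δ ∈ Icc (t₀ - δ) (t₀ + δ) := ⟨le_rfl, by linarith⟩
  have ht2 : t₀ + δ ∈ Icc (t₀ - δ) (t₀ + δ) := ⟨by linarith, le_rfl⟩
  have hH := hHOM (fun r s t => Ψ (c₁ s + (r * σ, r * τ)) - Ψ (c₂ t)) (s₀ - δ) (s₀ + δ) (t₀ - δ)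
    (t₀ + δ) (by linarith) (by linarith) (by
      refine ContinuousOn.sub ?_ ?_
      · refine hΨ.comp_continuousOn (ContinuousOn.add ?_ ?_)
        · refine hc1.comp (by fun_prop) ?_
          intro p hp
          exact hp.2.1
        · exact Continuous.continuousOn (by fun_prop)
      · refine hΨ.comp_continuousOn ?_
        refine hc2.comp (by fun_prop) ?_
        intro p hp
        exact hp.2.2) (by
      intro r hr
      refine ⟨fun x hx => ⟨fun h0 => ?_, fun h0 => ?_⟩, fun y hy => ⟨fun h0 => ?_, fun h0 => ?_⟩⟩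
      · have := (key r hr.1 x hx _ ht1 h0).2.2
        linarith
      · have := (key r hr.1 x hx _ ht2 h0).2.2
        linarith
      · have := (key r hr.1 _ hs1 y hy h0).2.1
        linarith
      · have := (key r hr.1 _ hs2 y hy h0).2.1
        linarith)
  have h0 : (fun s t => Ψ (c₁ s + ((0 : ℝ) * σ, (0 : ℝ) * τ)) - Ψ (c₂ t)) =
      fun s t => Ψ (c₁ s) - Ψ (c₂ t) := by
    funext s t
    have : ((0 : ℝ) * σ, (0 : ℝ) * τ) = (0 : ℝ × ℝ) := by
      rw [zero_mul, zero_mul]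
      rfl
    rw [this, add_zero]
  have hH' : wnd (fun s t => Ψ (c₁ s + ((0 : ℝ) * σ, (0 : ℝ) * τ)) - Ψ (c₂ t)) (s₀ - δ) (s₀ + δ)
      (t₀ - δ) (t₀ + δ) =
      wnd (fun s t => Ψ (c₁ s + ((1 : ℝ) * σ, (1 : ℝ) * τ)) - Ψ (c₂ t)) (s₀ - δ) (s₀ + δ)
      (t₀ - δ) (t₀ + δ) := hH
  rw [h0] at hH'
  rw [hH']
  refine hRCT _ _ _ _ _ (by linarith) (by linarith) ?_ ?_
  · refine ContinuousOn.sub ?_ ?_
    · refine hΨ.comp_continuousOn (ContinuousOn.add ?_ ?_)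
      · refine hc1.comp (by fun_prop) ?_
        intro p hp
        exact hp.1
      · exact continuousOn_const
    · refine hΨ.comp_continuousOn ?_
      refine hc2.comp (by fun_prop) ?_
      intro p hp
      exact hp.2
  · intro x hx y hy h0
    have := (key 1 (by norm_num) x hx y hy h0).1
    norm_num at this

end Pool.MXT
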